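import Pool.Agent.TH602.Turan.Swap

/-!
# Density thresholds forcing unbounded representation counts: sets closed under bitwise operations

`rep A n` is the number of ordered pairs of elements of `A` with sum `n`. We consider the sets
`A ⊆ ℕ` that are closed under a Boolean operation `f` which depends on at least two arguments and is
applied to the binary digits.

1. If `A` is closed under bitwise AND, OR or majority, and has more than `∑_{i < s} C(m, i)`
   elements below `2^m`, then `rep A n ≥ 2^{s² / (2m)}` for some `n`.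
2. If `A` is closed under the bitwise XOR of three numbers, then
   `rep A n ≥ |A ∩ [0, 2^m)| (3/4)^m` for some `n`.
3. In the class of 1 every `g` with `g(N) ≤ N^β` for arbitrarily large `N`, `β < 1/2`, forces
   unbounded representations.
4. In the class of all sets closed under some operation `f` the same is true for
   `β < 1/2 - log_2 (4/3) = 0.0849...`.
-/

set_option autoImplicit false

namespace Pool.Agent.Results.MP_491344_nt.BitwiseOperations

open Finset Filter Pool.Agent.TH602.Turan Pool.Agent.TH602.Turan.Swap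

/-- The number of ordered pairs of elements of `A` with sum `n`. -/
noncomputable def rep (A : Set ℕ) (n : ℕ) : ℕ :=
  Nat.card {p : ℕ × ℕ // p.1 ∈ A ∧ p.2 ∈ A ∧ p.1 + p.2 = n}

/-- `A` is closed under the operation `f`, applied to the binary digits. -/
def BitClosed {k : ℕ} (f : (Fin k → Bool) → Bool) (A : Set ℕ) : Prop :=
  ∀ X : Fin k → ℕ, (∀ i, X i ∈ A) → ∃ y ∈ A, ∀ q : ℕ, y.testBit q = f fun i => (X i).testBit q

/-- `A` is closed under bitwise AND, or under bitwise OR, or under bitwise majority. -/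
def LatticeClosed (A : Set ℕ) : Prop :=
  (∀ a ∈ A, ∀ b ∈ A, a &&& b ∈ A) ∨ (∀ a ∈ A, ∀ b ∈ A, a ||| b ∈ A) ∨
    ∀ a ∈ A, ∀ b ∈ A, ∀ c ∈ A, (a &&& b) ||| (a &&& c) ||| (b &&& c) ∈ A

/-- `A` is closed under the bitwise XOR of three elements. -/
def XorClosed (A : Set ℕ) : Prop := ∀ a ∈ A, ∀ b ∈ A, ∀ c ∈ A, a ^^^ b ^^^ c ∈ A

/-- `g` forces unbounded representations inside the class `𝒞`. -/
def ForcesIn (𝒞 : Set ℕ → Prop) (g : ℕ → ℝ) : Prop :=
  ∀ A : Set ℕ, 𝒞 A →
    (∃ C : ℝ, 0 < C ∧ ∀ᶠ N : ℕ in atTop, Real.sqrt N / g N ≤ C * ((A ∩ Set.Icc 1 N).ncard : ℝ)) →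
    ∀ B : ℕ, ∃ n, B ≤ rep A n

/-! ## From integers to vectors -/

variable {m : ℕ}

theorem ofBits_sum : ∀ {m : ℕ} (a b c d : Fin m → Bool),
    (∀ q, (a q).toNat + (b q).toNat = (c q).toNat + (d q).toNat) →
    Nat.ofBits a + Nat.ofBits b = Nat.ofBits c + Nat.ofBits d := by
  intro m
  induction m with
  | zero => intro a b c d _; simp
  | succ m ih =>
    intro a b c d h
    rw [Nat.ofBits_succ, Nat.ofBits_succ, Nat.ofBits_succ, Nat.ofBits_succ]
    have h1 := ih (a ∘ Fin.succ) (b ∘ Fin.succ) (c ∘ Fin.succ) (d ∘ Fin.succ) (fun q => h q.succ)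
    have h2 := h 0
    omega

theorem ofBits_inj {x y : Fin m → Bool} (h : Nat.ofBits x = Nat.ofBits y) : x = y := by
  funext i
  have h1 := Nat.testBit_ofBits_lt x i i.2
  have h2 := Nat.testBit_ofBits_lt y i i.2
  rw [h] at h1
  exact h1.symm.trans h2

theorem exists_ofBits {a : ℕ} (h : a < 2 ^ m) : ∃ x : Fin m → Bool, Nat.ofBits x = a :=
  ⟨fun i => a.testBit i, by rw [Nat.ofBits_testBit, Nat.mod_eq_of_lt h]⟩

open Classical in
/-- The binary expansions of the elements of `A` below `2^m`. -/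
noncomputable def fam (A : Set ℕ) (m : ℕ) : Finset (Fin m → Bool) :=
  univ.filter fun x => Nat.ofBits x ∈ A

theorem mem_fam {A : Set ℕ} {x : Fin m → Bool} : x ∈ fam A m ↔ Nat.ofBits x ∈ A := by
  simp [fam]

theorem card_fam (A : Set ℕ) (m : ℕ) : (fam A m).card = (A ∩ Set.Iio (2 ^ m)).ncard := by
  have h : A ∩ Set.Iio (2 ^ m) = Nat.ofBits '' (fam A m : Set (Fin m → Bool)) := by
    ext a
    constructor
    · rintro ⟨ha, hlt⟩
      obtain ⟨x, rfl⟩ := exists_ofBits (m := m) hlt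
      exact ⟨x, mem_coe.2 (mem_fam.2 ha), rfl⟩
    · rintro ⟨x, hx, rfl⟩
      exact ⟨mem_fam.1 (mem_coe.1 hx), Nat.ofBits_lt_two_pow x⟩
  rw [h, Set.ncard_image_of_injective _ (fun x y h => ofBits_inj h), Set.ncard_coe_finset]

theorem finite_rep (A : Set ℕ) (n : ℕ) :
    Finite {p : ℕ × ℕ // p.1 ∈ A ∧ p.2 ∈ A ∧ p.1 + p.2 = n} := by
  apply Set.Finite.to_subtype
  apply (Set.finite_Iic (n, n)).subset
  rintro ⟨a, b⟩ ⟨-, -, h⟩
  simp only at h
  exact ⟨by show a ≤ n; omega, by show b ≤ n; omega⟩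

theorem reps_le (A : Set ℕ) (a b : Fin m → Bool) :
    reps (fam A m) a b ≤ rep A (Nat.ofBits a + Nat.ofBits b) := by
  have := finite_rep A (Nat.ofBits a + Nat.ofBits b)
  apply reps_le_of_inj (fam A m) a b
    (fun p y => y.1 = (Nat.ofBits p.1, Nat.ofBits p.2))
  · intro p h1 h2 h3
    exact ⟨⟨(Nat.ofBits p.1, Nat.ofBits p.2), mem_fam.1 h1, mem_fam.1 h2,
      ofBits_sum _ _ _ _ h3⟩, rfl⟩
  · intro p p' y h1 h2
    rw [h1, Prod.mk.injEq] at h2
    exact Prod.ext (ofBits_inj h2.1) (ofBits_inj h2.2)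

theorem ofBits_and (x y : Fin m → Bool) :
    Nat.ofBits (fun i => x i && y i) = Nat.ofBits x &&& Nat.ofBits y := by
  apply Nat.eq_of_testBit_eq
  intro i
  by_cases h : i < m
  · simp [h]
  · simp [Nat.le_of_not_lt h]

theorem ofBits_or (x y : Fin m → Bool) :
    Nat.ofBits (fun i => x i || y i) = Nat.ofBits x ||| Nat.ofBits y := by
  apply Nat.eq_of_testBit_eq
  intro i
  by_cases h : i < m
  · simp [h]
  · simp [Nat.le_of_not_lt h]

theorem ofBits_xor (x y : Fin m → Bool) :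
    Nat.ofBits (fun i => xor (x i) (y i)) = Nat.ofBits x ^^^ Nat.ofBits y := by
  apply Nat.eq_of_testBit_eq
  intro i
  by_cases h : i < m
  · simp [h]
  · simp [Nat.le_of_not_lt h]

/-! ## The two inequalities -/

theorem part1 (A : Set ℕ) (hA : LatticeClosed A) (m s : ℕ)
    (h : ∑ i ∈ range s, m.choose i < (A ∩ Set.Iio (2 ^ m)).ncard) :
    ∃ n, 2 ^ (s ^ 2 / (2 * m)) ≤ rep A n := by
  rw [← card_fam] at h
  have hne : (fam A m).Nonempty := by
    rw [← card_pos]; omega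
  obtain ⟨b, hb⟩ : ∃ b : Fin m → Bool, ∀ x ∈ fam A m, ∀ y ∈ fam A m, meetAt b x y ∈ fam A m := by
    rcases hA with h1 | h1 | h1
    · refine ⟨fun _ => false, fun x hx y hy => ?_⟩
      rw [mem_fam] at hx hy ⊢
      have := h1 _ hx _ hy
      rw [← ofBits_and] at this
      convert this using 2
      funext i
      simp only [meetAt]
      cases x i <;> cases y i <;> rfl
    · refine ⟨fun _ => true, fun x hx y hy => ?_⟩
      rw [mem_fam] at hx hy ⊢
      have := h1 _ hx _ hy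
      rw [← ofBits_or] at this
      convert this using 2
      funext i
      simp only [meetAt]
      cases x i <;> cases y i <;> rfl
    · obtain ⟨b, hb⟩ := hne
      refine ⟨b, fun x hx y hy => ?_⟩
      rw [mem_fam] at hx hy hb ⊢
      have := h1 _ hx _ hy _ hb
      rw [← ofBits_and, ← ofBits_and, ← ofBits_and, ← ofBits_or, ← ofBits_or] at this
      convert this using 2
      funext i
      simp only [meetAt]
      cases x i <;> cases y i <;> cases b i <;> rfl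
  obtain ⟨x, _, y, _, hxy⟩ := reps_cube (fam A m) b hb s (by rw [Fintype.card_fin]; exact h)
  rw [Fintype.card_fin] at hxy
  exact ⟨_, hxy.trans (reps_le A x y)⟩

theorem part2 (A : Set ℕ) (hA : XorClosed A) (m : ℕ) :
    ∃ n, (A ∩ Set.Iio (2 ^ m)).ncard * 3 ^ m ≤ 4 ^ m * rep A n := by
  rw [← card_fam]
  by_cases hne : (fam A m).Nonempty
  · obtain ⟨a, ha⟩ := hne
    have hcl : ∀ x ∈ fam A m, ∀ y ∈ fam A m, ∀ z ∈ fam A m, sum3 x y z ∈ fam A m := by
      intro x hx y hy z hz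
      rw [mem_fam] at hx hy hz ⊢
      have := hA _ hx _ hy _ hz
      rw [← ofBits_xor, ← ofBits_xor] at this
      exact this
    obtain ⟨b, _, hb⟩ := reps_affine ha hcl
    rw [Fintype.card_fin] at hb
    exact ⟨_, hb.trans (Nat.mul_le_mul_left _ (reps_le A a b))⟩
  · rw [not_nonempty_iff_eq_empty] at hne
    exact ⟨0, by rw [hne]; simp⟩

theorem classes {k : ℕ} (f : (Fin k → Bool) → Bool) (i j : Fin k) (hij : i ≠ j)
    (hi : DependsOn f i) (hj : DependsOn f j) (A : Set ℕ) (hA : BitClosed f A) :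
    LatticeClosed A ∨ XorClosed A := by
  set T : Set (ℕ → Bool) := {x | ∃ a ∈ A, x = a.testBit} with hT
  have hTA : ∀ a : ℕ, (fun q => a.testBit q) ∈ T ↔ a ∈ A := by
    intro a
    constructor
    · rintro ⟨b, hb, h⟩
      have : a = b := Nat.eq_of_testBit_eq fun q => congrFun h q
      rwa [this]
    · intro ha
      exact ⟨a, ha, rfl⟩
  have hP : Preserved f T := by
    intro e he
    choose X hX hXe using he
    obtain ⟨y, hy, hyf⟩ := hA X hX
    refine ⟨y, hy, ?_⟩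
    funext q
    rw [hyf q]
    congr 1
    funext i
    rw [hXe i]
  rcases classify f T hP i j hij hi hj with h | h | h | h
  · left; left
    intro a ha b hb
    have := h _ ((hTA a).2 ha) _ ((hTA b).2 hb)
    rw [← hTA]
    simpa using this
  · left; right; left
    intro a ha b hb
    have := h _ ((hTA a).2 ha) _ ((hTA b).2 hb)
    rw [← hTA]
    simpa using this
  · left; right; right
    intro a ha b hb c hc
    have := h _ ((hTA a).2 ha) _ ((hTA b).2 hb) _ ((hTA c).2 hc)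
    rw [← hTA]
    simpa using this
  · right
    intro a ha b hb c hc
    have := h _ ((hTA a).2 ha) _ ((hTA b).2 hb) _ ((hTA c).2 hc)
    rw [← hTA]
    simpa using this

/-! ## Thresholds -/

theorem sum_choose_le (m s : ℕ) : ∑ i ∈ range s, m.choose i ≤ (m + 1) ^ s := by
  induction s with
  | zero => simp
  | succ s ih =>
    rw [sum_range_succ]
    have h1 : m.choose s ≤ m ^ s := Nat.choose_le_pow m s
    rcases Nat.eq_zero_or_pos m with rfl | hm
    · simp only [zero_add, one_pow] at ih ⊢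
      rcases Nat.eq_zero_or_pos s with rfl | hs
      · simp
      · rw [Nat.choose_eq_zero_of_lt hs]; simpa using ih
    · have h2 : m ^ s ≤ (m + 1) ^ s := Nat.pow_le_pow_left (by omega) s
      have h3 : (m + 1) ^ s ≤ m * (m + 1) ^ s := Nat.le_mul_of_pos_left _ hm
      rw [pow_succ]
      nlinarith

theorem asym (α C : ℝ) (hα : 0 < α) (hC : 0 < C) (K : ℕ) :
    ∀ᶠ m : ℕ in atTop, C * ((m : ℝ) + 1) ^ (Nat.sqrt (2 * m * K) + 1) < (2 : ℝ) ^ (α * (m - 1)) := by
  set D : ℝ := Real.sqrt (2 * K) + 1 with hD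
  have hD1 : 1 ≤ D := by rw [hD]; linarith [Real.sqrt_nonneg (2 * (K : ℝ))]
  have hl2 : 0 < Real.log 2 := Real.log_pos (by norm_num)
  set ε : ℝ := α * Real.log 2 / (2 * D) with hε
  have hεpos : 0 < ε := by positivity
  have h1 : ∀ᶠ x : ℝ in atTop, Real.log x ≤ ε * Real.sqrt x := by
    have := (isLittleO_log_rpow_atTop (r := 1 / 2) (by norm_num)).bound hεpos
    filter_upwards [this, eventually_ge_atTop 1] with x hx hx1
    rw [Real.norm_of_nonneg (Real.log_nonneg hx1), Real.norm_of_nonneg (by positivity),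
      ← Real.sqrt_eq_rpow] at hx
    exact hx
  have h2 : Tendsto (fun m : ℕ => (m : ℝ) + 1) atTop atTop :=
    tendsto_atTop_add_const_right _ _ tendsto_natCast_atTop_atTop
  have h3 : ∀ᶠ m : ℕ in atTop, Real.log C + 2 * (α * Real.log 2) <
      α * Real.log 2 / 2 * ((m : ℝ) + 1) :=
    (h2.const_mul_atTop (by positivity)).eventually_gt_atTop _
  filter_upwards [h2.eventually h1, h3] with m hm1 hm3
  set x : ℝ := (m : ℝ) + 1 with hx
  have hx1 : 1 ≤ x := by rw [hx]; linarith [Nat.cast_nonneg (α := ℝ) m]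
  have hsx : Real.sqrt x * Real.sqrt x = x := Real.mul_self_sqrt (by linarith)
  have hsx1 : 1 ≤ Real.sqrt x := Real.one_le_sqrt.2 hx1
  have hlogx : 0 ≤ Real.log x := Real.log_nonneg hx1
  -- the exponent
  have hs : ((Nat.sqrt (2 * m * K) + 1 : ℕ) : ℝ) ≤ D * Real.sqrt x := by
    push_cast
    have h4 : (Nat.sqrt (2 * m * K) : ℝ) ≤ Real.sqrt (2 * K) * Real.sqrt x := by
      rw [← Real.sqrt_mul (by positivity)]
      apply Real.le_sqrt_of_sq_le
      have h5 : Nat.sqrt (2 * m * K) ^ 2 ≤ 2 * m * K := Nat.sqrt_le' _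
      calc ((Nat.sqrt (2 * m * K) : ℕ) : ℝ) ^ 2 = ((Nat.sqrt (2 * m * K) ^ 2 : ℕ) : ℝ) := by
            push_cast; ring
        _ ≤ ((2 * m * K : ℕ) : ℝ) := by exact_mod_cast h5
        _ = 2 * K * m := by push_cast; ring
        _ ≤ 2 * K * x := by
            apply mul_le_mul_of_nonneg_left _ (by positivity)
            rw [hx]; linarith
    rw [hD]
    nlinarith
  rw [← Real.log_lt_log_iff (by positivity) (by positivity), Real.log_mul hC.ne' (by positivity),
    Real.log_pow, Real.log_rpow (by norm_num)]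
  have h6 : ((Nat.sqrt (2 * m * K) + 1 : ℕ) : ℝ) * Real.log x ≤ α * Real.log 2 / 2 * x := by
    calc ((Nat.sqrt (2 * m * K) + 1 : ℕ) : ℝ) * Real.log x
        ≤ D * Real.sqrt x * (ε * Real.sqrt x) :=
          mul_le_mul hs hm1 hlogx (by positivity)
      _ = D * ε * (Real.sqrt x * Real.sqrt x) := by ring
      _ = D * ε * x := by rw [hsx]
      _ = α * Real.log 2 / 2 * x := by
          rw [hε]; field_simp
  have h7 : (m : ℝ) - 1 = x - 2 := by rw [hx]; ring
  rw [h7]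
  nlinarith

/-- The density assumption gives many elements below a power of two. -/
theorem dense_count (A : Set ℕ) (g : ℕ → ℝ) (β C : ℝ) (hβ : β < 1 / 2) (hC : 0 < C)
    (hg : ∃ᶠ N : ℕ in atTop, 0 < g N ∧ g N ≤ (N : ℝ) ^ β)
    (hA : ∀ᶠ N : ℕ in atTop, Real.sqrt N / g N ≤ C * ((A ∩ Set.Icc 1 N).ncard : ℝ)) :
    ∃ᶠ m : ℕ in atTop,
      (2 : ℝ) ^ ((1 / 2 - β) * (m - 1)) ≤ C * ((A ∩ Set.Iio (2 ^ m)).ncard : ℝ) := by
  rw [frequently_atTop]
  intro M
  obtain ⟨N, hN⟩ := ((hg.and_eventually hA).and_eventually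
    ((eventually_ge_atTop (2 ^ M)).and (eventually_ge_atTop 1))).exists
  obtain ⟨⟨⟨hg0, hgN⟩, hAN⟩, hNM, hN1⟩ := hN
  refine ⟨Nat.log 2 N + 1, ?_, ?_⟩
  · have : M ≤ Nat.log 2 N := Nat.le_log_of_pow_le (by norm_num) hNM
    omega
  · have hlow : 2 ^ Nat.log 2 N ≤ N := Nat.pow_log_le_self 2 (by omega)
    have hup : N < 2 ^ (Nat.log 2 N + 1) := Nat.lt_pow_succ_log_self (by norm_num) N
    have hNpos : (0 : ℝ) < N := by exact_mod_cast hN1
    have h1 : (2 : ℝ) ^ ((1 / 2 - β) * (((Nat.log 2 N + 1 : ℕ) : ℝ) - 1)) ≤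
        (N : ℝ) ^ (1 / 2 - β) := by
      have h2 : (((Nat.log 2 N + 1 : ℕ) : ℝ) - 1) = (Nat.log 2 N : ℝ) := by push_cast; ring
      rw [h2, mul_comm, Real.rpow_mul (by norm_num), Real.rpow_natCast]
      apply Real.rpow_le_rpow (by positivity) (by exact_mod_cast hlow) (by linarith)
    refine h1.trans ?_
    have h3 : (N : ℝ) ^ (1 / 2 - β) ≤ Real.sqrt N / g N := by
      rw [le_div_iff₀ hg0]
      calc (N : ℝ) ^ (1 / 2 - β) * g N ≤ (N : ℝ) ^ (1 / 2 - β) * (N : ℝ) ^ β :=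
            mul_le_mul_of_nonneg_left hgN (by positivity)
        _ = Real.sqrt N := by
            rw [← Real.rpow_add hNpos, Real.sqrt_eq_rpow]; congr 1; ring
    refine (h3.trans hAN).trans ?_
    apply mul_le_mul_of_nonneg_left _ hC.le
    have hfin : (A ∩ Set.Iio (2 ^ (Nat.log 2 N + 1))).Finite :=
      (Set.finite_Iio _).subset Set.inter_subset_right
    have hsub : A ∩ Set.Icc 1 N ⊆ A ∩ Set.Iio (2 ^ (Nat.log 2 N + 1)) := by
      rintro a ⟨ha, ha1, haN⟩
      exact ⟨ha, lt_of_le_of_lt haN hup⟩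
    exact_mod_cast Set.ncard_le_ncard hsub hfin

theorem part3 (A : Set ℕ) (hA : LatticeClosed A) (α C : ℝ) (hα : 0 < α) (hC : 0 < C)
    (h : ∃ᶠ m : ℕ in atTop,
      (2 : ℝ) ^ (α * (m - 1)) ≤ C * ((A ∩ Set.Iio (2 ^ m)).ncard : ℝ)) (B : ℕ) :
    ∃ n, B ≤ rep A n := by
  obtain ⟨m, ⟨hm, hm'⟩, hm1⟩ := ((h.and_eventually (asym α C hα hC B)).and_eventually
    (eventually_ge_atTop 1)).exists
  set s := Nat.sqrt (2 * m * B) + 1 with hs
  have h1 : ∑ i ∈ range s, m.choose i < (A ∩ Set.Iio (2 ^ m)).ncard := by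
    have h2 := hm'.trans_le hm
    have h3 := lt_of_mul_lt_mul_left h2 hC.le
    have h4 : (m + 1) ^ s < (A ∩ Set.Iio (2 ^ m)).ncard := by exact_mod_cast h3
    exact (sum_choose_le m s).trans_lt h4
  obtain ⟨n, hn⟩ := part1 A hA m s h1
  refine ⟨n, le_trans ?_ hn⟩
  have h5 : B ≤ s ^ 2 / (2 * m) := by
    rw [Nat.le_div_iff_mul_le (by omega)]
    have := Nat.lt_succ_sqrt' (2 * m * B)
    rw [hs]
    calc B * (2 * m) = 2 * m * B := by ring
      _ ≤ _ := this.le
  exact h5.trans (Nat.lt_two_pow_self).le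

theorem part4 (A : Set ℕ) (hA : XorClosed A) (α C : ℝ) (hα : Real.logb 2 (4 / 3) < α) (hC : 0 < C)
    (h : ∃ᶠ m : ℕ in atTop,
      (2 : ℝ) ^ (α * (m - 1)) ≤ C * ((A ∩ Set.Iio (2 ^ m)).ncard : ℝ)) (B : ℕ) :
    ∃ n, B ≤ rep A n := by
  have h1 : (4 / 3 : ℝ) < 2 ^ α := by
    rw [← Real.logb_lt_iff_lt_rpow (by norm_num) (by norm_num)]
    exact hα
  have h2 : (1 : ℝ) < 2 ^ α * (3 / 4) := by linarith
  have h3 : ∀ᶠ m : ℕ in atTop, C * 2 ^ α * B < (2 ^ α * (3 / 4) : ℝ) ^ m :=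
    (tendsto_pow_atTop_atTop_of_one_lt h2).eventually_gt_atTop _
  obtain ⟨m, hm, hm'⟩ := (h.and_eventually h3).exists
  obtain ⟨n, hn⟩ := part2 A hA m
  refine ⟨n, ?_⟩
  have h4 : ((A ∩ Set.Iio (2 ^ m)).ncard : ℝ) * 3 ^ m ≤ 4 ^ m * rep A n := by exact_mod_cast hn
  have h5 : (2 : ℝ) ^ (α * (m - 1)) * 2 ^ α = (2 ^ α) ^ m := by
    rw [← Real.rpow_add (by norm_num), ← Real.rpow_natCast, ← Real.rpow_mul (by norm_num)]
    congr 1; ring
  have h6 : (2 : ℝ) ^ α * (3 / 4) = 2 ^ α * 3 / 4 := by ring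
  have h7 : ((2 : ℝ) ^ α) ^ m * 3 ^ m / 4 ^ m = (2 ^ α * (3 / 4)) ^ m := by
    rw [h6, div_pow, mul_pow]
  have h8 : (0 : ℝ) < 2 ^ α := by positivity
  by_contra hcon
  push Not at hcon
  have h9 : (rep A n : ℝ) < B := by exact_mod_cast hcon
  have h10 : ((2 : ℝ) ^ α) ^ m * 3 ^ m ≤ C * 2 ^ α * (4 ^ m * rep A n) := by
    calc ((2 : ℝ) ^ α) ^ m * 3 ^ m = 2 ^ (α * (m - 1)) * (2 ^ α * 3 ^ m) := by rw [← h5]; ring
      _ ≤ C * ((A ∩ Set.Iio (2 ^ m)).ncard : ℝ) * (2 ^ α * 3 ^ m) :=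
          mul_le_mul_of_nonneg_right hm (by positivity)
      _ = C * 2 ^ α * (((A ∩ Set.Iio (2 ^ m)).ncard : ℝ) * 3 ^ m) := by ring
      _ ≤ _ := mul_le_mul_of_nonneg_left h4 (by positivity)
  have h11 : (2 ^ α * (3 / 4) : ℝ) ^ m ≤ C * 2 ^ α * rep A n := by
    rw [← h7, div_le_iff₀ (by positivity)]
    linarith
  have h12 : C * 2 ^ α * (rep A n : ℝ) ≤ C * 2 ^ α * B :=
    mul_le_mul_of_nonneg_left h9.le (by positivity)
  linarith

/-- **Thresholds inside the sets closed under a bitwise operation.** -/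
theorem result :
    -- 1. AND, OR, majority
    (∀ A : Set ℕ, LatticeClosed A → ∀ m s : ℕ,
      ∑ i ∈ range s, m.choose i < (A ∩ Set.Iio (2 ^ m)).ncard →
      ∃ n, 2 ^ (s ^ 2 / (2 * m)) ≤ rep A n) ∧
    -- 2. XOR of three numbers
    (∀ A : Set ℕ, XorClosed A → ∀ m : ℕ,
      ∃ n, (A ∩ Set.Iio (2 ^ m)).ncard * 3 ^ m ≤ 4 ^ m * rep A n) ∧
    -- 3. thresholds in the class of 1
    (∀ (g : ℕ → ℝ) (β : ℝ), β < 1 / 2 →
      (∃ᶠ N : ℕ in atTop, 0 < g N ∧ g N ≤ (N : ℝ) ^ β) → ForcesIn LatticeClosed g) ∧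
    -- 4. thresholds in the class of all sets closed under some bitwise operation
    (∀ (g : ℕ → ℝ) (β : ℝ), β < 1 / 2 - Real.logb 2 (4 / 3) →
      (∃ᶠ N : ℕ in atTop, 0 < g N ∧ g N ≤ (N : ℝ) ^ β) →
      ForcesIn (fun A => ∃ (k : ℕ) (f : (Fin k → Bool) → Bool) (i j : Fin k),
        i ≠ j ∧ DependsOn f i ∧ DependsOn f j ∧ BitClosed f A) g) := by
  refine ⟨part1, part2, ?_, ?_⟩
  · intro g β hβ hg A hA hd B
    obtain ⟨C, hC, hd⟩ := hd
    exact part3 A hA (1 / 2 - β) C (by linarith) hC (dense_count A g β C hβ hC hg hd) B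
  · rintro g β hβ hg A ⟨k, f, i, j, hij, hi, hj, hA⟩ hd B
    obtain ⟨C, hC, hd⟩ := hd
    have h43 : 0 < Real.logb 2 (4 / 3) := Real.logb_pos (by norm_num) (by norm_num)
    have hcount := dense_count A g β C (by linarith) hC hg hd
    rcases classes f i j hij hi hj A hA with h | h
    · exact part3 A h (1 / 2 - β) C (by linarith) hC hcount B
    · exact part4 A h (1 / 2 - β) C (by linarith) hC hcount B

end Pool.Agent.Results.MP_491344_nt.BitwiseOperations
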