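import Pool.Agent.TH314.ET.Sparse

/-!
# Density thresholds and uniform distribution modulo one

`rep A n` is the number of ordered pairs of elements of `A` with sum `n`. For an infinite set
`A = {a_0 < a_1 < ...}` let `E(A)` be the set of the real `θ` for which the sequence `θ a_n` is not
uniformly distributed modulo one.

1. If `rep A` is bounded and `|A ∩ [1, N]| ≥ N ^ (α - o(1))`, then `E(A)` has Hausdorff dimension
   at most `max (1 - 2 α) 0`.
2. Let `0 ≤ η < 1 / 2` and `g(N) ≤ N ^ (η + o(1))`. Inside the class of all sets `A` for which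
   `E(A)` has Hausdorff dimension greater than `2 η`, `g` forces unbounded representations: if
   `|A ∩ [1, N]| ≫ √N / g(N)`, then `rep A` is unbounded.

Method: the large sieve for the representation functions of blocks of `A` and the maximal
inequality of Rademacher and Menshov show that the frequencies `θ` modulo one with
`max_{n < 2 ^ (l + 1)} |∑_{i < n} e(a_i θ)| ≥ ε 2 ^ l` are covered by `O(l³ T / 4 ^ l)` intervals of
length `2 / T`, if `a_i ≤ T` for `i < 2 ^ (l + 1)`.
-/

set_option autoImplicit false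

namespace Pool.Agent.Results.MP_491344_nt.ExceptionalFrequencies

open Filter Finset Topology Pool.Agent.TH314.ET

/-- the real `θ` for which `θ a_n` is not uniformly distributed modulo one -/
def Exc (A : Set ℕ) : Set ℝ := {θ : ℝ | ¬ Pool.Agent.H84R3.UD (fun n => θ * en A n)}

/-- **Thresholds and uniform distribution.** -/
theorem result :
    -- 1. the dimension of the exceptional set
    (∀ A : Set ℕ, A.Infinite → (∃ B : ℕ, ∀ n, rep A n ≤ B) → ∀ α : ℝ, 0 < α → α ≤ 1 →
      (∀ β : ℝ, 0 < β → β < α →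
        ∀ᶠ N : ℕ in atTop, (N : ℝ) ^ β ≤ ((A ∩ Set.Icc 1 N).ncard : ℝ)) →
      dimH (Exc A) ≤ ENNReal.ofReal (1 - 2 * α)) ∧
    -- 2. thresholds
    (∀ (g : ℕ → ℝ) (η : ℝ), 0 ≤ η → η < 1 / 2 →
      (∀ᶠ N : ℕ in atTop, 0 < g N) →
      (∀ δ : ℝ, 0 < δ → ∀ᶠ N : ℕ in atTop, g N ≤ (N : ℝ) ^ (η + δ)) →
      ∀ A : Set ℕ, ENNReal.ofReal (2 * η) < dimH (Exc A) →
        (∃ C : ℝ, 0 < C ∧ ∀ᶠ N : ℕ in atTop,
          Real.sqrt N / g N ≤ C * ((A ∩ Set.Icc 1 N).ncard : ℝ)) →
        ∀ B : ℕ, ∃ n, B < rep A n) := by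
  refine ⟨?_, ?_⟩
  · rintro A hinf ⟨B, hB⟩ α hα0 hα1 hgrow
    exact sparse_dim A hinf B hB α hα0 hα1 hgrow
  · intro g η hη0 hη1 hg0 hg A hdim hC B
    by_contra hcon
    push Not at hcon
    obtain ⟨C, hC0, hev⟩ := hC
    -- the growth
    have hgrow : ∀ β : ℝ, 0 < β → β < 1 / 2 - η →
        ∀ᶠ N : ℕ in atTop, (N : ℝ) ^ β ≤ ((A ∩ Set.Icc 1 N).ncard : ℝ) := by
      intro β hβ0 hβ1
      set δ : ℝ := (1 / 2 - η - β) / 2 with hδ
      have hδ0 : 0 < δ := by
        rw [hδ]
        linarith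
      have hlim : Tendsto (fun N : ℕ => (N : ℝ) ^ δ) atTop atTop :=
        (tendsto_rpow_atTop hδ0).comp tendsto_natCast_atTop_atTop
      filter_upwards [hev, hg0, hg δ hδ0, hlim.eventually_ge_atTop C, eventually_ge_atTop 1]
        with N h1 h2 h3 h4 h5
      have hN : (0 : ℝ) < N := by exact_mod_cast h5
      have h6 : (N : ℝ) ^ (1 / 2 - (η + δ)) ≤ Real.sqrt N / g N := by
        rw [Real.rpow_sub hN, ← Real.sqrt_eq_rpow]
        exact div_le_div_of_nonneg_left (Real.sqrt_nonneg _) h2 h3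
      have h7 : (N : ℝ) ^ (1 / 2 - (η + δ)) = (N : ℝ) ^ β * (N : ℝ) ^ δ := by
        rw [← Real.rpow_add hN]
        congr 1
        rw [hδ]
        ring
      rw [h7] at h6
      have h8 : (N : ℝ) ^ β * C ≤ (N : ℝ) ^ β * (N : ℝ) ^ δ :=
        mul_le_mul_of_nonneg_left h4 (by positivity)
      have h9 : C * (N : ℝ) ^ β ≤ C * ((A ∩ Set.Icc 1 N).ncard : ℝ) := by
        linarith
      exact le_of_mul_le_mul_left h9 hC0
    have hinf : A.Infinite := by
      by_contra hfin
      rw [Set.not_infinite] at hfin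
      have hpos : (0 : ℝ) < (1 / 2 - η) / 2 := by linarith
      have h1 := hgrow ((1 / 2 - η) / 2) hpos (by linarith)
      have hlim : Tendsto (fun N : ℕ => (N : ℝ) ^ ((1 / 2 - η) / 2)) atTop atTop :=
        (tendsto_rpow_atTop hpos).comp tendsto_natCast_atTop_atTop
      obtain ⟨N, hN1, hN2⟩ := (h1.and (hlim.eventually_gt_atTop (A.ncard : ℝ))).exists
      have h2 : ((A ∩ Set.Icc 1 N).ncard : ℝ) ≤ A.ncard := by
        exact_mod_cast Set.ncard_le_ncard Set.inter_subset_left hfin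
      linarith
    have h1 := sparse_dim A hinf B hcon (1 / 2 - η) (by linarith) (by linarith) hgrow
    have h2 : 1 - 2 * (1 / 2 - η) = 2 * η := by ring
    rw [h2] at h1
    exact absurd hdim (not_lt.2 h1)

end Pool.Agent.Results.MP_491344_nt.ExceptionalFrequencies
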