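import Pool.Agent.TH314.ET.Thresh

/-!
# Density thresholds forcing unbounded representation counts inside sets in few residue classes

`rep A n` is the number of ordered pairs of elements of `A` with sum `n`, and `res S p` is the
number of residue classes modulo `p` which contain an element of `S`. For `S ⊆ ℕ` let
`lsum S N = ∑_{q ≤ √N} μ²(q) / φ(q) ∏_{p ∣ q} ((p - ν p) / ν p)²`, `ν p = res S p`.

1. If `A ⊆ S`, then `|A ∩ [1, N]|² lsum S N ≤ 18 N rep A n` for some `n ≤ 2 N`.
2. Inside a finite union of sets `S i` every `g` with `g(N)² = o(lsum (S i) N)` for all `i` forces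
   unbounded representations.
3. If `res (S i) p ≤ (1 - δ) p` for all `i` and all large primes `p`, then every `g` with
   `g(N)² = o((log N)^((δ / (1 - δ))²))` forces unbounded representations inside the union.
4. If `∑_p (p - res (S i) p)² / p³ = ∞` for all `i`, then some `g → ∞` forces unbounded
   representations inside the union.
-/

set_option autoImplicit false

namespace Pool.Agent.Results.MP_491344_nt.ResidueThresholds

open Filter Finset Pool.Agent.TH314.ET

/-- **Thresholds inside sets in few residue classes.** -/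
theorem result :
    -- 1. the inequality
    (∀ S A : Set ℕ, A ⊆ S → ∀ N : ℕ, ∃ n, n ≤ 2 * N ∧
      ((A ∩ Set.Icc 1 N).ncard : ℝ) ^ 2 * lsum S N ≤ 18 * N * rep A n) ∧
    -- 2. thresholds
    (∀ (k : ℕ) (S : Fin k → Set ℕ) (g : ℕ → ℝ), (∀ᶠ N in atTop, 0 < g N) →
      (∀ i, Tendsto (fun N => lsum (S i) N / g N ^ 2) atTop atTop) →
      ForcesIn (⋃ i, S i) g) ∧
    -- 3. a positive proportion of the classes is missed
    (∀ (k : ℕ) (S : Fin k → Set ℕ) (g : ℕ → ℝ) (δ : ℝ), 0 < δ → δ < 1 →
      (∀ i, ∀ᶠ p : ℕ in atTop, p.Prime → (res (S i) p : ℝ) ≤ (1 - δ) * p) →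
      (∀ᶠ N in atTop, 0 < g N) →
      Tendsto (fun N : ℕ => Real.log N ^ ((δ / (1 - δ)) ^ 2) / g N ^ 2) atTop atTop →
      ForcesIn (⋃ i, S i) g) ∧
    -- 4. some threshold tends to infinity
    (∀ (k : ℕ) (S : Fin k → Set ℕ),
      (∀ i, ¬ Summable fun p : ℕ =>
        if p.Prime then ((p : ℝ) - res (S i) p) ^ 2 / (p : ℝ) ^ 3 else 0) →
      ∃ g : ℕ → ℝ, Tendsto g atTop atTop ∧ ForcesIn (⋃ i, S i) g) := by
  refine ⟨fun S A hA N => finite_sub S A hA N, ?_, ?_, ?_⟩
  · intro k S g hg hσ
    exact forces_of_lsum S g hg hσ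
  · intro k S g δ h0 h1 hres hg hlim
    exact forces_of_log S g δ h0 h1 hres hg hlim
  · intro k S hdiv
    exact exists_threshold S hdiv

end Pool.Agent.Results.MP_491344_nt.ResidueThresholds
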