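import Pool.Agent.TH454.BW.RepTrade

/-!
# The width and the number of elements of a set with a bounded representation function

A set `A` of natural numbers is given, below `N = 2 ^ m`, by an ordered binary decision diagram of
width `w`, which reads the `m` binary digits of a number in some fixed order. If every number has
fewer than `2 ^ (t + 1)` ordered representations as a sum of two elements of `A`, then `A` has at
most `(1 + 2 w log₂ N) ^ t` elements below `N`. This is sharp up to a power of `log N` for all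
widths. Hence the sets which satisfy the density condition of the question and have bounded
representation function need width `N ^ (1 / (2 t) - o(1))`, and `1 / (2 t)` cannot be improved.
-/

set_option autoImplicit false

namespace Pool.Agent.Results.MP_491344_nt.SharpWidth

open Pool.Agent.TH454.BW

theorem result :
    -- (1) nondeterministic decision diagrams with at most `β` edges at each level
    (∀ (A : Set ℕ) (β m t : ℕ), SetNObdd β m A →
      (1 + β * m) ^ t < Nat.card {a : ℕ // a ∈ A ∧ a < 2 ^ m} →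
      ∃ n < 2 ^ (m + 1), 2 ^ (t + 1) ≤ reps A n) ∧
    -- (2) decision diagrams with at most `w` nodes at each level
    (∀ (A : Set ℕ) (w m t : ℕ), SetObdd w m A →
      (1 + 2 * w * m) ^ t < Nat.card {a : ℕ // a ∈ A ∧ a < 2 ^ m} →
      ∃ n < 2 ^ (m + 1), 2 ^ (t + 1) ≤ reps A n) ∧
    -- (3) the asymptotic form
    (∀ (t : ℕ) (c c' d : ℝ), 1 ≤ t → 0 < c' → c < d / t →
      ∃ m₀ : ℕ, ∀ (m w : ℕ) (A : Set ℕ), m₀ ≤ m → SetObdd w m A →
        (∀ n < 2 ^ (m + 1), reps A n < 2 ^ (t + 1)) →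
        c' * ((2 : ℝ) ^ m) ^ d ≤ Nat.card {a : ℕ // a ∈ A ∧ a < 2 ^ m} →
        ((2 : ℝ) ^ m) ^ c < w) ∧
    -- (4) the density condition of the question
    (∀ (g : ℕ → ℝ) (A : Set ℕ) (t : ℕ) (c : ℝ), 1 ≤ t → c < 1 / (2 * t) →
      Filter.Tendsto g Filter.atTop Filter.atTop →
      (∀ ε : ℝ, 0 < ε → ∀ᶠ N : ℕ in Filter.atTop, g N ≤ (N : ℝ) ^ ε) →
      (∃ C : ℝ, 0 < C ∧ ∀ᶠ N : ℕ in Filter.atTop,
        (N : ℝ) ^ (1 / 2 : ℝ) / g N ≤ C * Nat.card {a : ℕ // a ∈ A ∧ 1 ≤ a ∧ a ≤ N}) →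
      (∀ n, reps A n < 2 ^ (t + 1)) →
      ∀ᶠ m : ℕ in Filter.atTop, ∀ w : ℕ, SetObdd w m A → ((2 : ℝ) ^ m) ^ c < w) ∧
    -- (5) the bound (2) is sharp up to a power of `m`, for all widths
    (∀ t l m : ℕ, 2 ≤ l → (2 * l + 4) * t ≤ m →
      ∃ (w : ℕ) (A : Set ℕ), (∀ a ∈ A, a < 2 ^ m) ∧ SetObdd w m A ∧ (∀ n, reps A n ≤ 2 ^ t) ∧
        w ≤ 2 ^ l + 1 ∧ 2 ^ ((l - 1) * t) ≤ Nat.card {a : ℕ // a ∈ A ∧ a < 2 ^ m}) ∧
    -- (6) the largest width in (5)
    (∀ t m : ℕ, 1 ≤ t → 8 * t ≤ m →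
      ∃ (w : ℕ) (A : Set ℕ), (∀ a ∈ A, a < 2 ^ m) ∧ SetObdd w m A ∧ (∀ n, reps A n ≤ 2 ^ t) ∧
        (w : ℝ) ≤ ((2 : ℝ) ^ m) ^ (1 / (2 * t) : ℝ) ∧
        ((2 : ℝ) ^ m) ^ (1 / 2 : ℝ) ≤ 16 ^ t * Nat.card {a : ℕ // a ∈ A ∧ a < 2 ^ m}) := by
  refine ⟨?_, ?_, ?_, ?_, ?_, ?_⟩
  · intro A β m t hA h
    exact nobdd_reps A β m t hA h
  · intro A w m t hA h
    exact obdd_reps A w m t hA h
  · intro t c c' d ht hc' hc
    exact obdd_reps_asy t c c' d ht hc' hc
  · intro g A t c ht hc hg hg' hA hr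
    exact force_width g A t c ht hc hg hg' hA hr
  · intro t l m hl hm
    exact rep_tradeoff t l m hl hm
  · intro t m ht hm
    exact rep_sharp t m ht hm

end Pool.Agent.Results.MP_491344_nt.SharpWidth
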